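import Pool.Agent.W601.SQ.Stm

set_option autoImplicit false
open scoped Classical Cardinal
open Filter Topology MeasureTheory

namespace Pool.Agent.W637.SQ

/-- Compact groups satisfy the countable chain condition. -/
theorem ccc_group (G : Type*) [Group G] [TopologicalSpace G] [IsTopologicalGroup G]
    [CompactSpace G] (𝒰 : Set (Set G)) (h : ∀ U ∈ 𝒰, IsOpen U ∧ U.Nonempty)
    (hd : 𝒰.PairwiseDisjoint id) : 𝒰.Countable := by
  letI : MeasurableSpace G := borel G
  haveI : BorelSpace G := ⟨rfl⟩
  let K : TopologicalSpace.PositiveCompacts G := ⊤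
  let μ : Measure G := Measure.haarMeasure K
  have key := Measure.countable_meas_pos_of_disjoint_iUnion (μ := μ)
    (As := fun U : ↥𝒰 => (U : Set G)) (fun U => (h U U.2).1.measurableSet)
    (fun U V hUV => hd U.2 V.2 (fun e => hUV (Subtype.ext e)))
  have huniv : {U : ↥𝒰 | 0 < μ (U : Set G)} = Set.univ := by
    ext U
    simp only [Set.mem_setOf_eq, Set.mem_univ, iff_true]
    exact (h U U.2).1.measure_pos μ (h U U.2).2
  rw [huniv] at key
  exact Set.countable_coe_iff.mp (Set.countable_univ_iff.mp key)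

theorem ccc : Pool.Agent.W601.SQ.S_CCC := fun 𝒰 h hd => ccc_group _ 𝒰 h hd

end Pool.Agent.W637.SQ
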